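import Pool.Agent.H39.AB1
import Pool.Agent.H39.FG4

/-! Topological `ℤ^d` systems with measure-wise realizations but no almost Borel embedding. -/

namespace Pool.Agent.Results.MP_93a5dd_an.NoEmb

open Set Filter Topology MeasureTheory Pool.Agent.H39

/-- `S` is an action of `ℤ^d` by homeomorphisms. -/
def IsAct {d : ℕ} {X : Type} [TopologicalSpace X] (S : (Fin d → ℤ) → X → X) : Prop :=
  (∀ i, Continuous (S i)) ∧ (∀ x, S 0 x = x) ∧ ∀ i j x, S (i + j) x = S i (S j x)

/-- `μ` is an invariant Borel probability measure. -/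
def Inv {d : ℕ} {Y : Type} [MeasurableSpace Y] (T : (Fin d → ℤ) → Y → Y) (μ : Measure Y) : Prop :=
  IsProbabilityMeasure μ ∧ ∀ i, MeasurePreserving (T i) μ μ

/-- `Y0` is an invariant Borel set carrying an injective morphism into `(X, S)`. -/
def Emb {d : ℕ} {X Y : Type} [MeasurableSpace X] [MeasurableSpace Y] (T : (Fin d → ℤ) → Y → Y)
    (S : (Fin d → ℤ) → X → X) (Y0 : Set Y) : Prop :=
  MeasurableSet Y0 ∧ ∃ (h : ∀ i, ∀ y ∈ Y0, T i y ∈ Y0) (ρ : Y0 → X), Measurable ρ ∧
    Function.Injective ρ ∧ ∀ i y, ρ ⟨T i y.1, h i y.1 y.2⟩ = S i (ρ y)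

noncomputable def ang (n : ℕ) (b : Bool) : UnitAddCircle :=
  ((1 / Nat.fermatNumber (2 * n + b.toNat) : ℝ) : UnitAddCircle)

abbrev Y : Type := (ℕ → Bool) × (ℕ → UnitAddCircle)

abbrev Z : Type := (ℕ → Bool) × (ℕ → ℂ)

noncomputable def T (m : ℤ) (y : Y) : Y := (y.1, y.2 + fun n => m • ang n (y.1 n))

noncomputable def S (m : ℤ) (z : Z) : Z := (z.1, fun n => fourier m (ang n (z.1 n)) * z.2 n)

theorem cont_T (m : ℤ) : Continuous (T m) := continuous_fst.prodMk (continuous_snd.add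
  (continuous_pi fun n => (continuous_of_discreteTopology (f := fun b => m • ang n b)).comp
    (by fun_prop)))

theorem cont_S (m : ℤ) : Continuous (S m) := continuous_fst.prodMk (continuous_pi fun n =>
  ((continuous_of_discreteTopology (f := fun b => fourier m (ang n b))).comp (by fun_prop)).mul
    (by fun_prop))

def D (f : (ℕ → ℕ) → ℕ → Bool) : Set Z := {z | ∃ w, f w = z.1 ∧ ∀ n, ‖z.2 n‖ = 1 / (w n + 1)}

theorem nf (m : ℤ) (x : UnitAddCircle) : ‖fourier m x‖ = 1 := Circle.norm_coe _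

theorem maps (f : (ℕ → ℕ) → ℕ → Bool) (m : ℤ) : MapsTo (S m) (closure (D f)) (closure (D f)) :=
  MapsTo.closure (fun z hz => hz.imp fun w hw => ⟨hw.1, fun n => by
    simpa only [S, norm_mul, nf, one_mul] using hw.2 n⟩) (cont_S m)

theorem comp (f : (ℕ → ℕ) → ℕ → Bool) : IsCompact (closure (D f)) := by
  have h := (isCompact_univ (X := ℕ → Bool)).prod
    (isCompact_univ_pi fun _ : ℕ => isCompact_closedBall (0 : ℂ) 1)
  refine h.of_isClosed_subset isClosed_closure (closure_minimal ?_ h.isClosed)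
  rintro z ⟨w, -, hw⟩
  refine ⟨trivial, fun n _ => mem_closedBall_zero_iff.2 ?_⟩
  rw [hw]
  exact Nat.one_div_le_one_div (Nat.zero_le _) |>.trans_eq (by simp)

theorem mem_D {f : (ℕ → ℕ) → ℕ → Bool} (hf : Continuous f) {z : Z} (hz : z ∈ closure (D f))
    (h : ∀ n, z.2 n ≠ 0) : z ∈ D f := by
  obtain ⟨x, hx, h1⟩ := mem_closure_iff_seq_limit.1 hz
  choose w h2 h3 using hx
  have h4 : ∀ n, Tendsto (fun j => (w j n : ℝ)) atTop (𝓝 (‖z.2 n‖⁻¹ - 1)) := fun n => by
    have := ((tendsto_pi_nhds.1 h1.snd_nhds n).norm.inv₀ (norm_ne_zero_iff.2 (h n))).sub_const 1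
    simpa [h3] using this
  choose v hv using fun n => Nat.isClosedEmbedding_coe_real.isClosed_range.mem_of_tendsto (h4 n)
    (Eventually.of_forall fun j => mem_range_self _)
  have h5 : Tendsto w atTop (𝓝 v) := tendsto_pi_nhds.2 fun n =>
    Nat.isClosedEmbedding_coe_real.tendsto_nhds_iff.2 (hv n ▸ h4 n)
  exact ⟨v, tendsto_nhds_unique ((hf.tendsto v).comp h5) (by
    simpa only [Function.comp_def, h2] using h1.fst_nhds), fun n => by simp [hv]⟩

theorem crt (n : ℕ) (b : Bool) : ∃ m : ℕ → ℤ, (∀ j, m j • ang n b = ang n b) ∧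
    ∀ k c, ¬(k = n ∧ c = b) → ∀ᶠ j in atTop, m j • ang k c = 0 := by
  have h0 : ∀ (k c) (q : ℤ), (Nat.fermatNumber (2 * k + Bool.toNat c) : ℤ) ∣ q → q • ang k c = 0 := by
    rintro k c _ ⟨q, rfl⟩
    have := (Nat.two_lt_fermatNumber (2 * k + c.toNat)).ne_zero
    rw [ang, ← AddCircle.coe_zsmul, AddCircle.coe_eq_zero_iff]
    exact ⟨q, by simp; field_simp⟩
  have h1 : ∀ j, (Nat.fermatNumber (2 * n + b.toNat)).Coprime
      (∏ s ∈ (Finset.range j).erase (2 * n + b.toNat), Nat.fermatNumber s) := fun j =>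
    Nat.Coprime.prod_right fun s hs =>
      Nat.coprime_fermatNumber_fermatNumber (Finset.ne_of_mem_erase hs).symm
  refine ⟨fun j => (Nat.chineseRemainder (h1 j) 1 0).1, fun j => ?_, fun k c h => ?_⟩
  · have := h0 n b _ (Nat.chineseRemainder (h1 j) 1 0).2.1.symm.dvd
    rwa [sub_smul, sub_eq_zero, Nat.cast_one, one_smul] at this
  · filter_upwards [eventually_gt_atTop (2 * k + c.toNat)] with j hj
    refine h0 _ _ _ (Int.natCast_dvd_natCast.2 ((Finset.dvd_prod_of_mem _ ?_).trans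
      (Nat.modEq_zero_iff_dvd.1 (Nat.chineseRemainder (h1 j) 1 0).2.2)))
    refine Finset.mem_erase.2 ⟨fun h2 => h ?_, Finset.mem_range.2 hj⟩
    cases b <;> cases c <;> simp at h2 ⊢ <;> omega

theorem ang_ne (n : ℕ) (b : Bool) : fourier 1 (ang n b) ≠ 1 := fun h => by
  have h1 : (2 : ℝ) < Nat.fermatNumber (2 * n + b.toNat) := by
    exact_mod_cast Nat.two_lt_fermatNumber _
  have h2 : ang n b = 0 := AddCircle.injective_toCircle one_ne_zero (Circle.ext (by simpa using h))
  have h3 := (AddCircle.coe_eq_zero_iff_of_mem_Ico ⟨by positivity,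
    (div_lt_one (by linarith)).2 (by linarith)⟩).1 h2
  exact (by positivity : (0 : ℝ) < _).ne' h3

theorem good {Y0 : Set Y} (h0 : MeasurableSet Y0) (h1 : ∀ m, ∀ y ∈ Y0, T m y ∈ Y0) {ρ : Y → Z}
    {g : Z → Y} (h2 : Measurable ρ) (h3 : Measurable g) (h4 : ∀ y ∈ Y0, g (ρ y) = y)
    (h5 : ∀ m, ∀ y ∈ Y0, ρ (T m y) = S m (ρ y)) (a : ℕ → Bool) (n : ℕ) :
    ∀ᵐ u ∂FG.haar, (a, u) ∈ Y0 → (ρ (a, u)).2 n ≠ 0 ∧ (ρ (a, u)).1 n = a n := by
  obtain ⟨m, m1, m2⟩ := crt n (a n)
  let V := {u | (a, u) ∈ Y0 ∧ ((ρ (a, u)).2 n = 0 ∨ (ρ (a, u)).1 n ≠ a n)}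
  have hρ : Measurable fun u => ρ (a, u) := h2.comp measurable_prodMk_left
  have v1 : MeasurableSet V := (measurable_prodMk_left h0).inter
    ((measurableSet_eq_fun (by fun_prop) measurable_const).union
      (measurableSet_eq_fun (by fun_prop) measurable_const).compl)
  have v2 : ∀ k : ℤ, ∀ u ∈ V, (u + fun n => k • ang n (a n)) ∈ V := fun k u hu =>
    ⟨h1 k _ hu.1, by
      have := h5 k _ hu.1
      simp only [T] at this
      rw [this]
      exact hu.2.imp_left fun h => by simp [S, h]⟩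
  have v3 : ∀ k : ℤ, MeasurePreserving (· + fun n => k • ang n (a n)) (FG.haar.restrict V)
      (FG.haar.restrict V) := fun k => by
    convert (FG.mp_rot _).restrict_preimage v1
    refine Subset.antisymm (v2 k) fun u hu => ?_
    convert v2 (-k) _ hu
    ext
    simp
  have v4 := AB.rigid (fun j => v3 (m j)) hρ ((ae_restrict_mem v1).mono fun u hu => ?_)
    (F := fun z => fourier 1 ((g z).2 n)) ((fourier 1).continuous.measurable.comp (by fun_prop))
    (fun z => nf _ _) (ang_ne n (a n)) fun j => (ae_restrict_mem v1).mono fun u hu => by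
      rw [h4 _ (v2 _ _ hu).1, h4 _ hu.1]
      simp [m1, AddCircle.toCircle_add, mul_comm]
  · refine measure_mono_null (fun u hu => ?_) (Measure.restrict_eq_zero.1 v4)
    simpa [V, or_iff_not_imp_left] using hu
  · refine Tendsto.congr (fun j => (h5 (m j) _ hu.1).symm) (tendsto_const_nhds.prodMk_nhds
      (tendsto_pi_nhds.2 fun k => ?_))
    by_cases h : k = n ∧ (ρ (a, u)).1 k = a n
    · obtain ⟨rfl, h⟩ := h
      simp [hu.2.resolve_right (not_not.2 h)]
    · exact tendsto_const_nhds.congr' ((m2 _ _ h).mono fun j hj => by simp [fourier_apply, hj])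

theorem result (d : ℕ) (hd : 1 ≤ d) : ∃ (X Y : Type) (_ : MetricSpace X) (_ : CompactSpace X)
    (_ : MeasurableSpace X) (_ : BorelSpace X) (_ : MetricSpace Y) (_ : CompactSpace Y)
    (_ : MeasurableSpace Y) (_ : BorelSpace Y) (S : (Fin d → ℤ) → X → X)
    (T : (Fin d → ℤ) → Y → Y), IsAct S ∧ IsAct T ∧
    (∀ μ, Inv T μ → ∃ Y0, μ Y0ᶜ = 0 ∧ Emb T S Y0) ∧
    ¬∃ Y0, (∀ μ, Inv T μ → μ Y0ᶜ = 0) ∧ Emb T S Y0 := by
  obtain ⟨f, f1, f2, f3⟩ := AB.insep
  let o : Fin d := ⟨0, hd⟩
  refine ⟨closure (D f), Y, TopologicalSpace.metrizableSpaceMetric _,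
    isCompact_iff_compactSpace.1 (comp f), inferInstance, Subtype.borelSpace _,
    TopologicalSpace.metrizableSpaceMetric _, inferInstanceAs (CompactSpace Y), inferInstance,
    inferInstanceAs (BorelSpace Y), fun i => (maps f (i o)).restrict, fun i => T (i o),
    ⟨fun i => (cont_S _).restrict _, fun x => Subtype.ext (by simp [S]),
      fun i j x => Subtype.ext (by simp [S, mul_assoc])⟩,
    ⟨fun i => cont_T _, fun x => by ext <;> simp [T], fun i j x => ?_⟩, fun μ hμ => ?_, ?_⟩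
  · ext <;> simp [T, add_smul, add_assoc, add_comm]
  · have := hμ.1
    obtain ⟨b, b1, b2⟩ := AB.jvn f1 f2 (μ.map Prod.fst)
    have b3 : MeasurableSet {a | f (b a) = a} :=
      measurableSet_eq_fun (f1.measurable.comp b1) measurable_id
    refine ⟨Prod.fst ⁻¹' {a | f (b a) = a}, (ae_map_iff measurable_fst.aemeasurable b3).1 b2,
      measurable_fst b3, fun _ _ h => h, fun y => ⟨(y.1.1, fun n =>
        fourier 1 (y.1.2 n) / (b y.1.1 n + 1)), subset_closure ⟨b y.1.1, y.2, fun n => ?_⟩⟩,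
      Measurable.subtype_mk (Measurable.prodMk (by fun_prop) (measurable_pi_lambda _ fun n =>
        ((fourier 1).continuous.measurable.comp (by fun_prop)).div ?_)), fun y y' h => ?_,
      fun i y => Subtype.ext ?_⟩
    · rw [norm_div, nf]
      norm_cast
    · exact (Measurable.of_discrete (f := fun k : ℕ => (k : ℂ) + 1)).comp (by fun_prop)
    · obtain ⟨h1, h2⟩ := Prod.ext_iff.1 (congrArg Subtype.val h)
      refine Subtype.ext (Prod.ext h1 (funext fun n => ?_))
      have h3 := congrFun h2 n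
      simp only at h1 h3
      rw [h1, div_left_inj' (Nat.cast_add_one_ne_zero _)] at h3
      exact AddCircle.injective_toCircle one_ne_zero (Circle.ext (by simpa using h3))
    · simp [S, T, fourier_apply, AddCircle.toCircle_add, mul_div_assoc, mul_comm]
  · rintro ⟨Y0, y1, y2, y3, ρ, r1, r2, r3⟩
    have y4 : ∀ a, ∀ᵐ u ∂FG.haar, (a, u) ∈ Y0 := fun a =>
      (ae_map_iff measurable_prodMk_left.aemeasurable y2).1 (y1 _
        ⟨Measure.isProbabilityMeasure_map measurable_prodMk_left.aemeasurable, fun i =>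
          MeasurePreserving.of_semiconj ⟨measurable_prodMk_left, rfl⟩
            (FG.mp_rot fun n => i o • ang n (a n))
            (fun _ => rfl) (cont_T _).measurable⟩)
    have : Nonempty Y0 := (y4 fun _ => true).exists.elim fun u h => ⟨⟨_, h⟩⟩
    have := y2.standardBorel
    have e1 := MeasurableEmbedding.subtype_coe y2
    have e2 := (measurable_subtype_coe.comp r1).measurableEmbedding
      (Subtype.val_injective.comp r2)
    have e3 : ∀ y (h : y ∈ Y0), e1.invFun y = ⟨y, h⟩ := fun y h => e1.leftInverse_invFun ⟨y, h⟩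
    have y5 : ∀ m, ∀ y ∈ Y0, T m y ∈ Y0 := fun m => y3 fun _ => m
    have e4 : Measurable fun y => (ρ (e1.invFun y)).1 :=
      measurable_subtype_coe.comp (r1.comp e1.measurable_invFun)
    have e5 : ∀ a, ∀ᵐ u ∂FG.haar, ∃ w, f w = a ∧ ‖(ρ (e1.invFun (a, u))).1.2 0‖ = 1 / (w 0 + 1) :=
      fun a => by
        filter_upwards [y4 a, ae_all_iff.2 (good y2 y5 e4
          (measurable_subtype_coe.comp e2.measurable_invFun)
          (fun y h => by rw [e3 y h]; exact congrArg Subtype.val (e2.leftInverse_invFun ⟨y, h⟩))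
          (fun m y h => by rw [e3 y h, e3 _ (y5 m y h)]; exact congrArg _ (r3 (fun _ => m) ⟨y, h⟩))
          a)] with u h1 h2
        obtain ⟨w, h3, h4⟩ := mem_D f1 (ρ _).2 fun n => (h2 n h1).1
        exact ⟨w, h3.trans (funext fun n => (h2 n h1).2), h4 0⟩
    have e6 : MeasurableSet {y | ‖(ρ (e1.invFun y)).1.2 0‖ = 1} :=
      measurableSet_eq_fun (by fun_prop) measurable_const
    refine f3 {a | FG.haar {u | ‖(ρ (e1.invFun (a, u))).1.2 0‖ = 1} = 0}ᶜ
      (measurable_measure_prodMk_left e6 (measurableSet_singleton 0)).compl (fun a ha => ?_)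
      fun a ha => ?_
    · obtain ⟨u, h1, w, h2, h3⟩ := ((frequently_ae_iff.2 ha).and_eventually (e5 a)).exists
      refine ⟨w, ?_, h2⟩
      rw [h1, eq_div_iff (by positivity)] at h3
      simpa using h3
    · obtain ⟨u, h1, w, h2, h3⟩ := ((measure_eq_zero_iff_ae_notMem.1 (not_not.1 ha)).and (e5 a)).exists
      exact ⟨w, fun h => h1 (by simpa [h] using h3), h2⟩

end Pool.Agent.Results.MP_93a5dd_an.NoEmb
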